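import Pool.Agent.R905.Div

/-!
# Nilpotence descends from exterior and symmetric powers
-/

set_option autoImplicit false
set_option linter.unusedSectionVars false
set_option linter.unusedSimpArgs false
set_option backward.isDefEq.respectTransparency false
set_option backward.defeqAttrib.useBackward true

open CategoryTheory Limits MonoidalCategory
open Pool.Agent.Y112.SR Pool.Agent.Y112.KD Pool.Agent.Y112.SC
open Pool.Agent.TH829.Kim (K_of_tr_zero)
open Pool.Agent.R905

namespace Pool.Agent.K3h77.PD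

universe v u w

open Functor.LaxMonoidal Functor.OplaxMonoidal

section

variable {C : Type u} [Category.{v} C] [Preadditive C] [Linear ℚ C] [MonoidalCategory C]
  [MonoidalPreadditive C] [MonoidalLinear ℚ C] [SymmetricCategory C]

/-- The tensor power of an endomorphism as a product. -/
lemma Dn_const {X : C} (f : X ⟶ X) (n : ℕ) : Dn n (fun _ => f) = tpm f n := by
  induction n with
  | zero => rfl
  | succ n ih =>
    change Dn n (fun _ => f) ⊗ₘ f = tpm f n ⊗ₘ f
    rw [ih]

lemma tpm_pow {X : C} (f : End X) (n k : ℕ) :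
    tpm ((f ^ k : End X) : X ⟶ X) n = ((en (tpm (f : X ⟶ X) n)) ^ k : End (tp X n)) := by
  induction k with
  | zero =>
    rw [pow_zero, pow_zero]
    exact tpm_id X n
  | succ k ih =>
    rw [pow_succ, pow_succ, End.mul_def, End.mul_def, ← ih, ← tpm_comp]
    rfl

end

section

variable {C : Type u} [Category.{v} C] [Preadditive C] [Linear ℚ C] [MonoidalCategory C]
  [MonoidalPreadditive C] [MonoidalLinear ℚ C] [SymmetricCategory C]
  [RightRigidCategory C] {K : Type w} [Field K] (R : SuperRealisation C K)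

/-- Nilpotence descends from the powers. -/
theorem homNil_of_power (hU : UnitQ C) {η : ℚ} (hη : η * η = 1) {M P : C} (n : ℕ)
    (i : P ⟶ tp M (n + 1)) (r : tp M (n + 1) ⟶ P) (hir : i ≫ r = 𝟙 P)
    (hri : r ≫ i = asym η M (n + 1)) (hP : HomNil R P) : HomNil R M := by
  intro f hf
  -- the realisation of the tensor power vanishes
  have h1 : R.H.map (tpm (f : M ⟶ M) (n + 1)) = 0 := by
    have e1 : tpm (f : M ⟶ M) (n + 1) = tpm (f : M ⟶ M) n ⊗ₘ (f : M ⟶ M) := rfl
    have e2 := bx_smul_right R (0 : K) (R.H.map (tpm (f : M ⟶ M) n)) (0 : R.H.obj M ⟶ R.H.obj M)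
    rw [e1, ← bx_map, hf]
    simpa using e2
  -- the endomorphism of the summand
  obtain ⟨N, hN⟩ := hP (en (i ≫ tpm (f : M ⟶ M) (n + 1) ≫ r)) (by
    rw [en, Functor.map_comp, Functor.map_comp, h1]
    simp)
  have hab : ∀ g : M ⟶ M, (i ≫ tpm g (n + 1) ≫ r) ≫ i = i ≫ tpm g (n + 1) := by
    intro g
    rw [Category.assoc, Category.assoc, hri, asym_nat, ← hri, Category.assoc, reassoc_of% hir]
  have key : ∀ k : ℕ, ((en (i ≫ tpm (f : M ⟶ M) (n + 1) ≫ r)) ^ k : End P) ≫ i =
      i ≫ tpm ((f ^ k : End M) : M ⟶ M) (n + 1) := by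
    intro k
    induction k with
    | zero =>
      rw [pow_zero, pow_zero]
      have e1 : tpm ((1 : End M) : M ⟶ M) (n + 1) = 𝟙 _ := tpm_id M (n + 1)
      rw [e1, Category.comp_id]
      exact Category.id_comp _
    | succ k ih =>
      rw [pow_succ', End.mul_def, Category.assoc]
      have e1 : (en (i ≫ tpm (f : M ⟶ M) (n + 1) ≫ r)) ≫ i = i ≫ tpm (f : M ⟶ M) (n + 1) :=
        hab f
      rw [e1, ← Category.assoc, ih, Category.assoc, tpm_comp]
      congr 2
      rw [pow_succ', End.mul_def]
  have h2 := key N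
  rw [hN] at h2
  have h3 : i ≫ tpm ((f ^ N : End M) : M ⟶ M) (n + 1) = 0 := by
    rw [← h2]
    exact zero_comp
  have h4 : asym η M (n + 1) ≫ tpm ((f ^ N : End M) : M ⟶ M) (n + 1) = 0 := by
    rw [← hri, Category.assoc, h3, comp_zero]
  have h5 : gg η (n + 1) (fun _ => f ^ N) = 0 := by
    rw [gg]
    have e1 : Dn (n + 1) (fun _ : Fin (n + 1) => ((f ^ N : End M) : M ⟶ M)) =
        tpm ((f ^ N : End M) : M ⟶ M) (n + 1) := Dn_const _ _
    rw [e1, asym_nat, h4, smul_zero]
  have h6 := cc_gg hU hη n (fun _ => f ^ N)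
  rw [h5, map_zero] at h6
  -- all traces of powers vanish
  rcases Nat.eq_zero_or_pos N with rfl | hNpos
  · -- the object vanishes
    have h7 : i = 0 := by
      have e1 : tpm ((f ^ 0 : End M) : M ⟶ M) (n + 1) = 𝟙 _ := by
        rw [pow_zero]
        exact tpm_id M (n + 1)
      rw [e1, Category.comp_id] at h3
      exact h3
    have h8 : asym η M (n + 1) = 0 := by rw [← hri, h7, comp_zero]
    have h9 : gg η (n + 1) (fun _ => f) = 0 := by
      rw [gg, h8, comp_zero, smul_zero]
    have h10 := cc_gg hU hη n (fun _ => f)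
    rw [h9, map_zero] at h10
    have ht : ∀ k, 1 ≤ k → trq hU M (f ^ k) = 0 := by
      intro k hk
      apply trq_eq_zero R hU
      obtain ⟨k, rfl⟩ : ∃ l, k = l + 1 := ⟨k - 1, by omega⟩
      rw [pow_succ, End.mul_def, Functor.map_comp, hf, zero_comp]
    have h11 := K_of_tr_zero (trq hU M) η ht n (fun _ => 1) (fun _ => le_rfl)
    simp only [pow_one] at h11
    rw [← h10] at h11
    have hc : (η ^ n * n.factorial : ℚ) ≠ 0 := by
      apply mul_ne_zero
      · apply pow_ne_zero
        rintro rfl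
        norm_num at hη
      · exact_mod_cast Nat.factorial_ne_zero n
    exact ⟨_, (smul_eq_zero.1 h11.symm).resolve_left hc⟩
  · have ht : ∀ k, 1 ≤ k → trq hU M (f ^ k) = 0 := by
      intro k hk
      apply trq_eq_zero R hU
      obtain ⟨k, rfl⟩ : ∃ l, k = l + 1 := ⟨k - 1, by omega⟩
      rw [pow_succ, End.mul_def, Functor.map_comp, hf, zero_comp]
    have h11 := K_of_tr_zero (trq hU M) η ht n (fun _ => N) (fun _ => hNpos)
    rw [← h6] at h11
    have hc : (η ^ n * n.factorial : ℚ) ≠ 0 := by
      apply mul_ne_zero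
      · apply pow_ne_zero
        rintro rfl
        norm_num at hη
      · exact_mod_cast Nat.factorial_ne_zero n
    exact ⟨_, (smul_eq_zero.1 h11.symm).resolve_left hc⟩

end

end Pool.Agent.K3h77.PD
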